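import Mathlib

/-!
# Metric mean dimension of Hölder continuous interval maps

If `φ : [0,1] → [0,1]` is `α`-Hölder continuous, `0 < α ≤ 1`, then the upper metric mean dimension of
`φ` is at most `1 - α`. So it is zero if `φ` is `α`-Hölder continuous for every `α < 1`.

Idea: cut `[0,1]` into intervals of length `ε`. The image of one of them has length at most `C ε ^ α`
and meets at most `C ε ^ (α - 1) + 2` of them. So there are at most
`(1 / ε + 1) (C ε ^ (α - 1) + 2) ^ (n - 1)` itineraries of length `n`, and the points of an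
`(n, ε)`-separated set have different itineraries.
-/

open Filter Topology Set

namespace Pool.Agent.Results.MP_d02d3c_an.HolderMeanDimension

/-- The Bowen metric `d_n(x, y) = max_{0 ≤ k < n} |φ^k x - φ^k y|`. -/
noncomputable def bowen (φ : unitInterval → unitInterval) (n : ℕ) (x y : unitInterval) : ℝ :=
  ⨆ k : Fin n, |((φ^[k] x : unitInterval) : ℝ) - ((φ^[k] y : unitInterval) : ℝ)|

/-- `E` is `(n, ε)`-separated: `d_n(x, y) > ε` for all distinct `x, y ∈ E`. -/
def IsSeparatedSet (φ : unitInterval → unitInterval) (n : ℕ) (ε : ℝ) (E : Finset unitInterval) :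
    Prop :=
  ∀ x ∈ E, ∀ y ∈ E, x ≠ y → ε < bowen φ n x y

/-- `s(n, ε)`: the largest cardinality of an `(n, ε)`-separated set. -/
noncomputable def sepNum (φ : unitInterval → unitInterval) (n : ℕ) (ε : ℝ) : ℕ∞ :=
  ⨆ (E : Finset unitInterval) (_ : IsSeparatedSet φ n ε E), (E.card : ℕ∞)

/-- `h(φ, ε) = limsup_n (1 / n) log s(n, ε)`. -/
noncomputable def entropyAt (φ : unitInterval → unitInterval) (ε : ℝ) : EReal :=
  limsup (fun n : ℕ => ENNReal.log ((sepNum φ n ε : ℕ∞) : ENNReal) / ((n : ℝ) : EReal)) atTop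

/-- The upper metric mean dimension `limsup_{ε → 0} h(φ, ε) / |log ε|`. -/
noncomputable def upperMeanDim (φ : unitInterval → unitInterval) : EReal :=
  limsup (fun ε : ℝ => entropyAt φ ε / ((|Real.log ε| : ℝ) : EReal)) (𝓝[>] 0)

/-- The lower metric mean dimension `liminf_{ε → 0} h(φ, ε) / |log ε|`. -/
noncomputable def lowerMeanDim (φ : unitInterval → unitInterval) : EReal :=
  liminf (fun ε : ℝ => entropyAt φ ε / ((|Real.log ε| : ℝ) : EReal)) (𝓝[>] 0)

/-- `φ` is `α`-Hölder continuous. -/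
def IsHolder (φ : unitInterval → unitInterval) (α : ℝ) : Prop :=
  ∃ C : ℝ, 0 < C ∧ ∀ x y : unitInterval,
    |(φ x : ℝ) - (φ y : ℝ)| ≤ C * |(x : ℝ) - (y : ℝ)| ^ α

/-- the index of the interval containing `φ^k x` -/
noncomputable def idx (φ : unitInterval → unitInterval) (ε : ℝ) (k : ℕ) (x : unitInterval) : ℕ :=
  ⌊((φ^[k] x : unitInterval) : ℝ) / ε⌋₊

theorem card_le_of_close (T : Finset ℕ) (D : ℕ) (h : ∀ a ∈ T, ∀ b ∈ T, a ≤ b + D) :
    T.card ≤ D + 1 := by
  rcases T.eq_empty_or_nonempty with rfl | hT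
  · simp
  · have h1 : T ⊆ Finset.Icc (T.min' hT) (T.min' hT + D) := by
      intro a ha
      rw [Finset.mem_Icc]
      exact ⟨Finset.min'_le _ _ ha, h a ha _ (Finset.min'_mem _ _)⟩
    have h2 := Finset.card_le_card h1
    rw [Nat.card_Icc] at h2
    omega

theorem idx_close {φ : unitInterval → unitInterval} {ε C α : ℝ} (hε : 0 < ε) (hα : 0 < α)
    (hC : 0 < C)
    (hφ : ∀ x y : unitInterval, |(φ x : ℝ) - (φ y : ℝ)| ≤ C * |(x : ℝ) - (y : ℝ)| ^ α)
    (k : ℕ) (x y : unitInterval) (hxy : idx φ ε k x = idx φ ε k y) :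
    idx φ ε (k + 1) x ≤ idx φ ε (k + 1) y + (⌊C * ε ^ (α - 1)⌋₊ + 1) := by
  have hclose : |((φ^[k] x : unitInterval) : ℝ) - ((φ^[k] y : unitInterval) : ℝ)| ≤ ε := by
    unfold idx at hxy
    have hx0 : 0 ≤ ((φ^[k] x : unitInterval) : ℝ) / ε := div_nonneg (φ^[k] x).2.1 hε.le
    have hy0 : 0 ≤ ((φ^[k] y : unitInterval) : ℝ) / ε := div_nonneg (φ^[k] y).2.1 hε.le
    have h1 := Nat.floor_le hx0
    have h2 := Nat.floor_le hy0
    have h3 := Nat.lt_floor_add_one (((φ^[k] x : unitInterval) : ℝ) / ε)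
    have h4 := Nat.lt_floor_add_one (((φ^[k] y : unitInterval) : ℝ) / ε)
    rw [hxy] at h1 h3
    have h5 : ((φ^[k] x : unitInterval) : ℝ) / ε - ((φ^[k] y : unitInterval) : ℝ) / ε ≤ 1 := by
      linarith
    have h6 : ((φ^[k] y : unitInterval) : ℝ) / ε - ((φ^[k] x : unitInterval) : ℝ) / ε ≤ 1 := by
      linarith
    rw [← sub_div, div_le_one hε] at h5 h6
    rw [abs_le]
    constructor <;> linarith
  have h1 := hφ (φ^[k] x) (φ^[k] y)
  rw [← Function.iterate_succ_apply' φ k x, ← Function.iterate_succ_apply' φ k y] at h1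
  have h2 : |((φ^[k] x : unitInterval) : ℝ) - ((φ^[k] y : unitInterval) : ℝ)| ^ α ≤ ε ^ α :=
    Real.rpow_le_rpow (abs_nonneg _) hclose hα.le
  have h3 : ((φ^[k+1] x : unitInterval) : ℝ) - ((φ^[k+1] y : unitInterval) : ℝ) ≤ C * ε ^ α :=
    (le_abs_self _).trans (h1.trans (mul_le_mul_of_nonneg_left h2 hC.le))
  have h4 : ((φ^[k+1] x : unitInterval) : ℝ) / ε ≤
      ((φ^[k+1] y : unitInterval) : ℝ) / ε + C * ε ^ (α - 1) := by
    have : C * ε ^ (α - 1) = C * ε ^ α / ε := by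
      rw [Real.rpow_sub_one hε.ne', mul_div_assoc]
    rw [this, ← add_div]
    gcongr
    linarith
  have hx0 : 0 ≤ ((φ^[k+1] x : unitInterval) : ℝ) / ε := div_nonneg (φ^[k+1] x).2.1 hε.le
  have h5 := Nat.floor_le hx0
  have h6 := Nat.lt_floor_add_one (((φ^[k+1] y : unitInterval) : ℝ) / ε)
  unfold idx
  set a := ⌊((φ^[k+1] x : unitInterval) : ℝ) / ε⌋₊
  set b := ⌊((φ^[k+1] y : unitInterval) : ℝ) / ε⌋₊
  by_contra hcon
  push Not at hcon
  have h7 : (a - b - 1 : ℕ) ≤ ⌊C * ε ^ (α - 1)⌋₊ := by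
    apply Nat.le_floor
    have h8 : ((a - b - 1 : ℕ) : ℝ) = (a : ℝ) - b - 1 := by
      rw [Nat.sub_sub, Nat.cast_sub (by omega)]
      push_cast
      ring
    rw [h8]
    linarith
  omega

theorem card_itineraries {φ : unitInterval → unitInterval} {ε C α : ℝ} (hε : 0 < ε) (hα : 0 < α)
    (hC : 0 < C)
    (hφ : ∀ x y : unitInterval, |(φ x : ℝ) - (φ y : ℝ)| ≤ C * |(x : ℝ) - (y : ℝ)| ^ α)
    (E : Finset unitInterval) (n : ℕ) :
    (E.image (fun x => fun k : Fin (n + 1) => idx φ ε k x)).card ≤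
      (⌊C * ε ^ (α - 1)⌋₊ + 2) ^ n * (⌊1 / ε⌋₊ + 1) := by
  classical
  induction n with
  | zero =>
    rw [pow_zero, one_mul]
    have h1 : (E.image (fun x => fun k : Fin (0 + 1) => idx φ ε k x)).card ≤
        (Finset.range (⌊1 / ε⌋₊ + 1)).card := by
      apply Finset.card_le_card_of_injOn (fun f => f 0)
      · intro f hf
        simp only [Finset.coe_image, Set.mem_image] at hf
        obtain ⟨x, hx, rfl⟩ := hf
        simp only [Finset.coe_range, Set.mem_Iio]
        refine Nat.lt_succ_of_le ?_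
        unfold idx
        apply Nat.floor_le_floor
        gcongr
        exact (φ^[_] x).2.2
      · intro f hf g hg hfg
        funext k
        fin_cases k
        exact hfg
    rwa [Finset.card_range] at h1
  | succ n ih =>
    set A := E.image (fun x => fun k : Fin (n + 1 + 1) => idx φ ε k x) with hA
    let f : (Fin (n + 1 + 1) → ℕ) → (Fin (n + 1) → ℕ) := fun v k => v k.castSucc
    have himg : A.image f = E.image (fun x => fun k : Fin (n + 1) => idx φ ε k x) := by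
      rw [hA, Finset.image_image]
      rfl
    have hfib : ∀ a ∈ A.image f, (A.filter fun v => f v = a).card ≤ ⌊C * ε ^ (α - 1)⌋₊ + 2 := by
      intro a _
      have h1 : (A.filter fun v => f v = a).card ≤
          ((A.filter fun v => f v = a).image fun v => v (Fin.last (n + 1))).card := by
        rw [Finset.card_image_of_injOn]
        intro v hv w hw hvw
        simp only [Finset.coe_filter, Set.mem_ofPred_eq] at hv hw
        funext k
        refine Fin.lastCases hvw (fun j => ?_) k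
        have := congrFun (hv.2.trans hw.2.symm) j
        exact this
      refine h1.trans ?_
      apply card_le_of_close _ (⌊C * ε ^ (α - 1)⌋₊ + 1)
      intro p hp q hq
      simp only [Finset.mem_image, Finset.mem_filter, hA] at hp hq
      obtain ⟨v, ⟨⟨x, hx, rfl⟩, hv2⟩, rfl⟩ := hp
      obtain ⟨w, ⟨⟨y, hy, rfl⟩, hw2⟩, rfl⟩ := hq
      have h2 := congrFun (hv2.trans hw2.symm) (Fin.last n)
      have h3 : idx φ ε n x = idx φ ε n y := by simpa [f] using h2
      have := idx_close hε hα hC hφ n x y h3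
      simpa using this
    have h := Finset.card_le_mul_card_image A _ hfib
    rw [himg] at h
    calc A.card ≤ (⌊C * ε ^ (α - 1)⌋₊ + 2) *
          (E.image (fun x => fun k : Fin (n + 1) => idx φ ε k x)).card := h
      _ ≤ (⌊C * ε ^ (α - 1)⌋₊ + 2) * ((⌊C * ε ^ (α - 1)⌋₊ + 2) ^ n * (⌊1 / ε⌋₊ + 1)) :=
          Nat.mul_le_mul_left _ ih
      _ = _ := by ring

theorem card_separated {φ : unitInterval → unitInterval} {ε C α : ℝ} (hε : 0 < ε) (hα : 0 < α)
    (hC : 0 < C)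
    (hφ : ∀ x y : unitInterval, |(φ x : ℝ) - (φ y : ℝ)| ≤ C * |(x : ℝ) - (y : ℝ)| ^ α)
    (E : Finset unitInterval) (n : ℕ) (hE : IsSeparatedSet φ (n + 1) ε E) :
    E.card ≤ (⌊C * ε ^ (α - 1)⌋₊ + 2) ^ n * (⌊1 / ε⌋₊ + 1) := by
  classical
  rw [← Finset.card_image_of_injOn (f := fun x => fun k : Fin (n + 1) => idx φ ε k x) (s := E)]
  · exact card_itineraries hε hα hC hφ E n
  · intro x hx y hy hxy
    by_contra hne
    have h1 := hE x hx y hy hne
    have h2 : bowen φ (n + 1) x y ≤ ε := by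
      unfold bowen
      apply ciSup_le
      intro k
      have h3 : idx φ ε k x = idx φ ε k y := congrFun hxy k
      unfold idx at h3
      have hx0 : 0 ≤ ((φ^[k] x : unitInterval) : ℝ) / ε := div_nonneg (φ^[k] x).2.1 hε.le
      have hy0 : 0 ≤ ((φ^[k] y : unitInterval) : ℝ) / ε := div_nonneg (φ^[k] y).2.1 hε.le
      have h1 := Nat.floor_le hx0
      have h2 := Nat.floor_le hy0
      have h4 := Nat.lt_floor_add_one (((φ^[k] x : unitInterval) : ℝ) / ε)
      have h5 := Nat.lt_floor_add_one (((φ^[k] y : unitInterval) : ℝ) / ε)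
      rw [h3] at h1 h4
      have h6 : ((φ^[k] x : unitInterval) : ℝ) / ε - ((φ^[k] y : unitInterval) : ℝ) / ε ≤ 1 := by
        linarith
      have h7 : ((φ^[k] y : unitInterval) : ℝ) / ε - ((φ^[k] x : unitInterval) : ℝ) / ε ≤ 1 := by
        linarith
      rw [← sub_div, div_le_one hε] at h6 h7
      rw [abs_le]
      constructor <;> linarith
    linarith

theorem log_sepNum_le {φ : unitInterval → unitInterval} {ε C α : ℝ} (hε : 0 < ε) (hα : 0 < α)
    (hC : 0 < C)
    (hφ : ∀ x y : unitInterval, |(φ x : ℝ) - (φ y : ℝ)| ≤ C * |(x : ℝ) - (y : ℝ)| ^ α)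
    (n : ℕ) :
    ENNReal.log ((sepNum φ (n + 1) ε : ℕ∞) : ENNReal) ≤
      (((n : ℝ) * Real.log (⌊C * ε ^ (α - 1)⌋₊ + 2) + Real.log (⌊1 / ε⌋₊ + 1) : ℝ) : EReal) := by
  have h1 : sepNum φ (n + 1) ε ≤
      (((⌊C * ε ^ (α - 1)⌋₊ + 2) ^ n * (⌊1 / ε⌋₊ + 1) : ℕ) : ℕ∞) := by
    unfold sepNum
    refine iSup₂_le fun E hE => ?_
    exact_mod_cast card_separated hε hα hC hφ E n hE
  have h2 : ((sepNum φ (n + 1) ε : ℕ∞) : ENNReal) ≤
      ENNReal.ofReal (((⌊C * ε ^ (α - 1)⌋₊ : ℝ) + 2) ^ n * ((⌊1 / ε⌋₊ : ℝ) + 1)) := by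
    have h3 : ((sepNum φ (n + 1) ε : ℕ∞) : ENNReal) ≤
        ((((⌊C * ε ^ (α - 1)⌋₊ + 2) ^ n * (⌊1 / ε⌋₊ + 1) : ℕ) : ℕ∞) : ENNReal) := by
      exact_mod_cast h1
    refine h3.trans (le_of_eq ?_)
    rw [ENat.toENNReal_coe, ← ENNReal.ofReal_natCast]
    congr 1
    push_cast
    ring
  have hpos : (0 : ℝ) < ((⌊C * ε ^ (α - 1)⌋₊ : ℝ) + 2) ^ n * ((⌊1 / ε⌋₊ : ℝ) + 1) := by
    positivity
  have h4 := ENNReal.log_le_log h2
  rw [ENNReal.log_ofReal_of_pos hpos, Real.log_mul (by positivity) (by positivity),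
    Real.log_pow] at h4
  exact h4

theorem entropyAt_le {φ : unitInterval → unitInterval} {ε C α : ℝ} (hε : 0 < ε) (hα : 0 < α)
    (hC : 0 < C)
    (hφ : ∀ x y : unitInterval, |(φ x : ℝ) - (φ y : ℝ)| ≤ C * |(x : ℝ) - (y : ℝ)| ^ α) :
    entropyAt φ ε ≤ ((Real.log (⌊C * ε ^ (α - 1)⌋₊ + 2) : ℝ) : EReal) := by
  set a : ℝ := Real.log (⌊C * ε ^ (α - 1)⌋₊ + 2) with ha
  set b : ℝ := Real.log (⌊1 / ε⌋₊ + 1) with hb
  have ha0 : 0 ≤ a := Real.log_nonneg (by linarith [Nat.cast_nonneg (α := ℝ) ⌊C * ε ^ (α - 1)⌋₊])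
  have hlim : Tendsto (fun n : ℕ => ((a + b / (n : ℝ) : ℝ) : EReal)) atTop (𝓝 ((a : ℝ) : EReal)) := by
    refine (continuous_coe_real_ereal.tendsto a).comp ?_
    have h1 : Tendsto (fun n : ℕ => a + b / (n : ℝ)) atTop (𝓝 (a + 0)) :=
      tendsto_const_nhds.add (tendsto_const_div_atTop_nhds_zero_nat b)
    rwa [add_zero] at h1
  unfold entropyAt
  rw [← hlim.limsup_eq]
  refine limsup_le_limsup ?_
  filter_upwards [eventually_ge_atTop 1] with n hn
  obtain ⟨m, rfl⟩ : ∃ m, n = m + 1 := ⟨n - 1, by omega⟩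
  have h1 := log_sepNum_le hε hα hC hφ m
  have hn0 : (0 : ℝ) < ((m + 1 : ℕ) : ℝ) := by positivity
  have h2 : ENNReal.log ((sepNum φ (m + 1) ε : ℕ∞) : ENNReal) / ((((m + 1 : ℕ) : ℝ)) : EReal) ≤
      (((m : ℝ) * a + b : ℝ) : EReal) / ((((m + 1 : ℕ) : ℝ)) : EReal) :=
    EReal.div_le_div_right_of_nonneg (by exact_mod_cast hn0.le) h1
  refine h2.trans ?_
  rw [← EReal.coe_div, EReal.coe_le_coe_iff]
  rw [div_le_iff₀ hn0, add_mul, div_mul_cancel₀ _ hn0.ne']
  push_cast
  nlinarith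

theorem entropyAt_nonneg (φ : unitInterval → unitInterval) (ε : ℝ) : 0 ≤ entropyAt φ ε := by
  unfold entropyAt
  refine le_limsup_of_frequently_le ?_ (by isBoundedDefault)
  refine Eventually.frequently (Eventually.of_forall fun n => ?_)
  have h1 : (1 : ℕ∞) ≤ sepNum φ n ε := by
    unfold sepNum
    refine le_trans ?_ (le_iSup₂ (f := fun (E : Finset unitInterval)
      (_ : IsSeparatedSet φ n ε E) => (E.card : ℕ∞)) {(0 : unitInterval)} ?_)
    · simp
    · intro x hx y hy hxy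
      simp only [Finset.mem_singleton] at hx hy
      exact absurd (hx.trans hy.symm) hxy
  have h2 : (1 : ENNReal) ≤ ((sepNum φ n ε : ℕ∞) : ENNReal) := by exact_mod_cast h1
  have h3 : (0 : EReal) ≤ ENNReal.log ((sepNum φ n ε : ℕ∞) : ENNReal) := by
    rw [ENNReal.zero_le_log_iff]; exact h2
  exact EReal.div_nonneg h3 (by exact_mod_cast Nat.cast_nonneg n)

theorem upperMeanDim_le {φ : unitInterval → unitInterval} {α : ℝ} (hα : 0 < α) (hα1 : α ≤ 1)
    (hφ : IsHolder φ α) : upperMeanDim φ ≤ ((1 - α : ℝ) : EReal) := by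
  obtain ⟨C, hC, hφ⟩ := hφ
  have hlogtop : Tendsto (fun ε : ℝ => |Real.log ε|) (𝓝[>] 0) atTop :=
    tendsto_abs_atBot_atTop.comp Real.tendsto_log_nhdsGT_zero
  have hlim : Tendsto (fun ε : ℝ => (((1 - α) + Real.log (C + 3) / |Real.log ε| : ℝ) : EReal))
      (𝓝[>] 0) (𝓝 ((1 - α : ℝ) : EReal)) := by
    refine (continuous_coe_real_ereal.tendsto (1 - α)).comp ?_
    have h1 : Tendsto (fun ε : ℝ => (1 - α) + Real.log (C + 3) / |Real.log ε|) (𝓝[>] 0)
        (𝓝 ((1 - α) + 0)) :=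
      tendsto_const_nhds.add (hlogtop.const_div_atTop _)
    rwa [add_zero] at h1
  unfold upperMeanDim
  rw [← hlim.limsup_eq]
  refine limsup_le_limsup ?_
  have hsmall : ∀ᶠ ε : ℝ in 𝓝[>] 0, 0 < ε ∧ ε < 1 := by
    filter_upwards [Ioo_mem_nhdsGT (zero_lt_one : (0 : ℝ) < 1)] with ε hε using hε
  filter_upwards [hsmall] with ε hε
  have hlogneg : Real.log ε < 0 := Real.log_neg hε.1 hε.2
  have habs : |Real.log ε| = - Real.log ε := abs_of_neg hlogneg
  have hpos : 0 < |Real.log ε| := abs_pos.mpr hlogneg.ne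
  have h1 := entropyAt_le hε.1 hα hC hφ
  have h2 : Real.log (⌊C * ε ^ (α - 1)⌋₊ + 2) ≤ Real.log (C + 3) + (1 - α) * |Real.log ε| := by
    have h3 : (1 : ℝ) ≤ ε ^ (α - 1) :=
      Real.one_le_rpow_of_pos_of_le_one_of_nonpos hε.1 hε.2.le (by linarith)
    have h4 : ((⌊C * ε ^ (α - 1)⌋₊ : ℝ) + 2) ≤ (C + 3) * ε ^ (α - 1) := by
      have h5 := Nat.floor_le (show 0 ≤ C * ε ^ (α - 1) by positivity)
      nlinarith
    have h6 := Real.log_le_log (by positivity) h4
    rw [Real.log_mul (by positivity) (by positivity), Real.log_rpow hε.1] at h6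
    rw [habs]
    linarith
  have h3 : entropyAt φ ε / ((|Real.log ε| : ℝ) : EReal) ≤
      ((Real.log (C + 3) + (1 - α) * |Real.log ε| : ℝ) : EReal) / ((|Real.log ε| : ℝ) : EReal) :=
    EReal.div_le_div_right_of_nonneg (by exact_mod_cast hpos.le)
      (h1.trans (by exact_mod_cast h2))
  refine h3.trans ?_
  rw [← EReal.coe_div, EReal.coe_le_coe_iff, add_div, mul_div_cancel_right₀ _ hpos.ne']
  linarith

/-- If `φ : [0,1] → [0,1]` is `α`-Hölder continuous, `0 < α ≤ 1`, then its upper metric mean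
dimension is at most `1 - α`. If `φ` is `α`-Hölder continuous for every `α ∈ (0,1)`, then its upper
and its lower metric mean dimension are `0`. -/
theorem result :
    (∀ (φ : unitInterval → unitInterval) (α : ℝ), 0 < α → α ≤ 1 → IsHolder φ α →
      upperMeanDim φ ≤ ((1 - α : ℝ) : EReal)) ∧
    (∀ φ : unitInterval → unitInterval, (∀ α : ℝ, 0 < α → α < 1 → IsHolder φ α) →
      upperMeanDim φ = 0 ∧ lowerMeanDim φ = 0) := by
  refine ⟨fun φ α h0 h1 h => upperMeanDim_le h0 h1 h, fun φ h => ?_⟩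
  have hnn : ∀ ε : ℝ, 0 ≤ entropyAt φ ε / ((|Real.log ε| : ℝ) : EReal) := fun ε =>
    EReal.div_nonneg (entropyAt_nonneg φ ε) (by exact_mod_cast abs_nonneg _)
  have hlow : 0 ≤ lowerMeanDim φ := by
    unfold lowerMeanDim
    refine le_liminf_of_le (by isBoundedDefault) (Eventually.of_forall hnn)
  have hle : lowerMeanDim φ ≤ upperMeanDim φ := by
    unfold lowerMeanDim upperMeanDim
    exact liminf_le_limsup
  have hup : upperMeanDim φ ≤ 0 := by
    refine le_of_tendsto_of_tendsto (b := 𝓝[<] (1 : ℝ))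
      (g := fun α : ℝ => ((1 - α : ℝ) : EReal)) tendsto_const_nhds ?_ ?_
    · have h1 : Tendsto (fun α : ℝ => 1 - α) (𝓝[<] (1 : ℝ)) (𝓝 (1 - 1)) :=
        (tendsto_const_nhds.sub tendsto_id).mono_left nhdsWithin_le_nhds
      rw [sub_self] at h1
      exact (continuous_coe_real_ereal.tendsto 0).comp h1
    · filter_upwards [Ioo_mem_nhdsLT (zero_lt_one : (0 : ℝ) < 1)] with α hα
      exact upperMeanDim_le hα.1 hα.2.le (h α hα.1 hα.2)
  exact ⟨le_antisymm hup (hlow.trans hle), le_antisymm (hle.trans hup) hlow⟩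

end Pool.Agent.Results.MP_d02d3c_an.HolderMeanDimension
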