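import Mathlib
import Pool.Agent.L0h88.FP.Weak

/-!
# Common fixed points for nonexpansive representations of semigroups with a LIM on `WAP(S)`

We prove that every semitopological semigroup `S` (no separability assumption) whose space `WAP(S)`
of weakly almost periodic functions has a left invariant mean has the fixed point property (F):
every weakly separately continuous, weakly quasi-equicontinuous, `Q`-nonexpansive representation of
`S` on a nonempty weakly compact convex subset of a Hausdorff locally convex space `(E, Q)` has a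
common fixed point.

A semitopological semigroup is a semigroup with a Hausdorff topology for which the multiplication is
separately continuous: `[Semigroup S] [TopologicalSpace S] [T2Space S] [SeparatelyContinuousMul S]`.
-/

open Filter Topology Set
open scoped BoundedContinuousFunction ComplexOrder

namespace Pool.Agent.Results.MP_c68506_an.NonexpansiveFixedPoints

section defs

variable {𝕜 : Type*} [RCLike 𝕜] {S : Type*} [Semigroup S] [TopologicalSpace S]
  [SeparatelyContinuousMul S]

/-- The left translate `ℓ_a f (t) = f (a * t)` of a bounded continuous function. -/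
def leftTranslate (a : S) (f : S →ᵇ 𝕜) : S →ᵇ 𝕜 :=
  f.compContinuous ⟨fun t => a * t, SeparatelyContinuousMul.continuous_const_mul⟩

@[simp] lemma leftTranslate_apply (a : S) (f : S →ᵇ 𝕜) (t : S) :
    leftTranslate a f t = f (a * t) := rfl

/-- The orbit `{ℓ_a f : a ∈ S}` of `f`, as a subset of the Banach space `C_b(S)` of bounded
continuous `𝕜`-valued functions with its weak topology. -/
def weakOrbit (f : S →ᵇ 𝕜) : Set (WeakSpace 𝕜 (S →ᵇ 𝕜)) :=
  Set.range fun a : S => toWeakSpace 𝕜 (S →ᵇ 𝕜) (leftTranslate a f)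

/-- `f` is *weakly almost periodic*: its orbit is relatively weakly compact in `C_b(S)`. -/
def IsWAP (f : S →ᵇ 𝕜) : Prop := IsCompact (closure (weakOrbit f))

lemma IsWAP.of_subset {f : S →ᵇ 𝕜} {K : Set (WeakSpace 𝕜 (S →ᵇ 𝕜))} (hK : IsCompact K)
    (h : weakOrbit f ⊆ K) : IsWAP f :=
  hK.of_isClosed_subset isClosed_closure (closure_minimal h hK.isClosed)

lemma IsWAP.leftTranslate {f : S →ᵇ 𝕜} (hf : IsWAP f) (a : S) : IsWAP (leftTranslate a f) := by
  refine IsWAP.of_subset hf ?_
  rintro _ ⟨b, rfl⟩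
  refine subset_closure ⟨a * b, ?_⟩
  refine congrArg (toWeakSpace 𝕜 (S →ᵇ 𝕜)) ?_
  ext t
  simp [mul_assoc]

lemma IsWAP.zero : IsWAP (0 : S →ᵇ 𝕜) := by
  refine IsWAP.of_subset (isCompact_singleton (x := 0)) ?_
  rintro _ ⟨a, rfl⟩
  have : NonexpansiveFixedPoints.leftTranslate a (0 : S →ᵇ 𝕜) = 0 := by ext t; simp
  simp [this]

lemma IsWAP.add {f g : S →ᵇ 𝕜} (hf : IsWAP f) (hg : IsWAP g) : IsWAP (f + g) := by
  refine IsWAP.of_subset (IsCompact.add hf hg) ?_
  rintro _ ⟨a, rfl⟩
  refine ⟨_, subset_closure ⟨a, rfl⟩, _, subset_closure ⟨a, rfl⟩, ?_⟩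
  simp only
  rw [← map_add]
  congr 1

lemma IsWAP.smul {f : S →ᵇ 𝕜} (hf : IsWAP f) (c : 𝕜) : IsWAP (c • f) := by
  refine IsWAP.of_subset (IsCompact.image hf (continuous_const_smul c)) ?_
  rintro _ ⟨a, rfl⟩
  refine ⟨_, subset_closure ⟨a, rfl⟩, ?_⟩
  simp only
  rw [← map_smul]
  congr 1

variable (𝕜 S) in
/-- The space `WAP(S)` of weakly almost periodic functions on `S`, with values in `𝕜`. -/
def WAP : Submodule 𝕜 (S →ᵇ 𝕜) where
  carrier := {f | IsWAP f}
  zero_mem' := IsWAP.zero
  add_mem' := IsWAP.add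
  smul_mem' := fun c _ hf => IsWAP.smul hf c

/-- Left translation on `WAP(S)`. -/
def WAP.translate (a : S) (f : WAP 𝕜 S) : WAP 𝕜 S :=
  ⟨leftTranslate a f, IsWAP.leftTranslate f.2 a⟩

/-- A linear functional `m` on `WAP(S)` is a *mean*: `m ≥ 0` and `m 1 = 1`. -/
def IsMean (m : WAP 𝕜 S →ₗ[𝕜] 𝕜) : Prop :=
  (∀ f : WAP 𝕜 S, (∀ t : S, 0 ≤ f.1 t) → 0 ≤ m f) ∧
    ∀ f : WAP 𝕜 S, f.1 = BoundedContinuousFunction.const S 1 → m f = 1

/-- A linear functional `m` on `WAP(S)` is *left invariant*: `m (ℓ_a f) = m f`. -/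
def IsLeftInvariant (m : WAP 𝕜 S →ₗ[𝕜] 𝕜) : Prop :=
  ∀ (a : S) (f : WAP 𝕜 S), m (WAP.translate a f) = m f

variable (𝕜 S) in
/-- `WAP(S)` has a *left invariant mean*. -/
def HasLIM : Prop := ∃ m : WAP 𝕜 S →ₗ[𝕜] 𝕜, IsMean m ∧ IsLeftInvariant m

/-- A family `T s : K → K`, `s ∈ S`, of maps of a topological space `K` is a *separately continuous
quasi-equicontinuous representation* of the semigroup `S`: `T (s * t) = T s ∘ T t`, the map
`(s, x) ↦ T s x` is separately continuous, and every map in the closure of `{T s : s ∈ S}` in the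
product space `K → K` is continuous. -/
structure IsQuasiEquicontinuousRep {S K : Type*} [Semigroup S] [TopologicalSpace S]
    [TopologicalSpace K] (T : S → K → K) : Prop where
  map_mul : ∀ (s t : S) (x : K), T (s * t) x = T s (T t x)
  continuous_right : ∀ s : S, Continuous (T s)
  continuous_left : ∀ x : K, Continuous fun s => T s x
  continuous_of_mem_closure : ∀ σ ∈ closure (Set.range T), Continuous σ

/-- The subset `C` of the topological vector space `E` with the weak topology of `E`. -/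
def Weak (𝕜 : Type*) [RCLike 𝕜] {E : Type*} [AddCommGroup E] [Module 𝕜 E] [TopologicalSpace E]
    (C : Set E) : Type _ :=
  {x : WeakSpace 𝕜 E // (toWeakSpace 𝕜 E).symm x ∈ C}

/-- The weak topology of `C`. -/
noncomputable instance Weak.topology {E : Type*} [AddCommGroup E] [Module 𝕜 E] [TopologicalSpace E]
    (C : Set E) : TopologicalSpace (Weak 𝕜 C) :=
  instTopologicalSpaceSubtype

/-- The inclusion of `C`, with the weak topology, in `E`. -/
noncomputable def Weak.val {E : Type*} [AddCommGroup E] [Module 𝕜 E] [TopologicalSpace E]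
    {C : Set E} (x : Weak 𝕜 C) : E :=
  (toWeakSpace 𝕜 E).symm x.1

end defs

/-- Property (F) of a semitopological semigroup `S`: for every Hausdorff locally convex space `E`
over `𝕜` (`= ℝ` or `ℂ`), whose topology is given by the family `Q` of seminorms, and every nonempty
weakly compact convex set `C` in `E`, every weakly separately continuous, weakly
quasi-equicontinuous and `Q`-nonexpansive representation `T` of `S` on `C` has a common fixed
point. -/
def PropertyF.{u, v, w} (𝕜 : Type w) [RCLike 𝕜] (S : Type*) [Semigroup S] [TopologicalSpace S] :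
    Prop :=
  ∀ (E : Type u) [AddCommGroup E] [Module 𝕜 E] [Module ℝ E] [IsScalarTower ℝ 𝕜 E]
    [TopologicalSpace E] [T2Space E] (ι : Type v) (Q : SeminormFamily 𝕜 E ι), WithSeminorms Q →
    ∀ C : Set E, C.Nonempty → Convex ℝ C → CompactSpace (Weak 𝕜 C) →
    ∀ T : S → Weak 𝕜 C → Weak 𝕜 C, IsQuasiEquicontinuousRep T →
      (∀ i s x y, Q i ((T s x).val - (T s y).val) ≤ Q i (x.val - y.val)) →
      ∃ x, ∀ s, T s x = x

section proofs

open Pool.Agent.L0h88.FP

variable {𝕜 : Type*} [RCLike 𝕜] {S : Type*} [TopologicalSpace S]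

/-- the coefficient function `t ↦ φ (T t x)`, as a linear map in `φ` -/
noncomputable def coeff (𝕜 : Type*) [RCLike 𝕜] {K : Type*} [TopologicalSpace K] [CompactSpace K]
    (u : C(S, K)) : C(K, ℝ) →L[ℝ] (S →ᵇ 𝕜) :=
  LinearMap.mkContinuous
    { toFun := fun φ => BoundedContinuousFunction.ofNormedAddCommGroup
        (fun t => ((φ (u t) : ℝ) : 𝕜)) (by fun_prop) ‖φ‖ (fun t => by
          simpa using φ.norm_coe_le_norm (u t))
      map_add' := fun φ ψ => by ext t; simp
      map_smul' := fun c φ => by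
        ext t
        simp [RCLike.real_smul_eq_coe_mul] } 1 (fun φ => by
      rw [one_mul]
      exact (BoundedContinuousFunction.norm_le (norm_nonneg _)).2 fun t => by
        simpa using φ.norm_coe_le_norm (u t))

@[simp] lemma coeff_apply {K : Type*} [TopologicalSpace K] [CompactSpace K]
    (u : C(S, K)) (φ : C(K, ℝ)) (t : S) : coeff 𝕜 u φ t = ((φ (u t) : ℝ) : 𝕜) := rfl

variable [Semigroup S] [SeparatelyContinuousMul S]

/-- coefficients of a quasi-equicontinuous action on a compact space are weakly almost periodic -/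
lemma isWAP_coeff {K : Type*} [TopologicalSpace K] [CompactSpace K] [T2Space K] (T : S → K → K)
    (hT : IsQuasiEquicontinuousRep T) (x : K) (u : C(S, K))
    (hu : ∀ t, u t = T t x) (φ : C(K, ℝ)) : IsWAP (coeff 𝕜 u φ) := by
  set Z : Set (K → K) := closure (Set.range T) with hZ
  have hqe := hT.continuous_of_mem_closure
  have hrep := hT.map_mul
  haveI : CompactSpace Z := isCompact_iff_compactSpace.1 isClosed_closure.isCompact
  set F : Z → C(K, ℝ) := fun z => ⟨fun y => φ (z.1 y), φ.continuous.comp (hqe z.1 z.2)⟩ with hF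
  have hFc : ∀ y, Continuous fun z => F z y := fun y =>
    φ.continuous.comp ((continuous_apply y).comp continuous_subtype_val)
  have hFM : ∀ z y, |F z y| ≤ ‖φ‖ := fun z y => φ.norm_coe_le_norm (z.1 y)
  have hG : Continuous fun z => toWeakSpace 𝕜 (S →ᵇ 𝕜) (coeff 𝕜 u (F z)) := by
    refine WeakBilin.continuous_of_continuous_eval _ fun ℓ => ?_
    change Continuous fun z => ℓ (coeff 𝕜 u (F z))
    have h1 := continuous_functional F hFc ‖φ‖ hFM
      ((RCLike.reCLM.comp (ℓ.restrictScalars ℝ)).comp (coeff 𝕜 u))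
    have h2 := continuous_functional F hFc ‖φ‖ hFM
      ((RCLike.imCLM.comp (ℓ.restrictScalars ℝ)).comp (coeff 𝕜 u))
    have h3 : (fun z => ℓ (coeff 𝕜 u (F z))) = fun z =>
        ((RCLike.re (ℓ (coeff 𝕜 u (F z))) : ℝ) : 𝕜) +
          ((RCLike.im (ℓ (coeff 𝕜 u (F z))) : ℝ) : 𝕜) * RCLike.I := by
      funext z
      exact (RCLike.re_add_im _).symm
    rw [h3]
    exact (RCLike.continuous_ofReal.comp h1).add ((RCLike.continuous_ofReal.comp h2).mul
      continuous_const)
  refine IsWAP.of_subset (isCompact_range hG) ?_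
  rintro _ ⟨a, rfl⟩
  refine ⟨⟨T a, subset_closure ⟨a, rfl⟩⟩, ?_⟩
  simp only
  congr 1
  ext t
  simp [hF, hu, hrep]

/-- the invariant positive functional on `C(K)` given by a left invariant mean on `WAP(S)` and a
point `x` of `K` -/
lemma exists_functional (h : HasLIM 𝕜 S) {K : Type*} [TopologicalSpace K] [CompactSpace K]
    [T2Space K] (T : S → K → K) (hT : IsQuasiEquicontinuousRep T) (x : K) :
    ∃ Λ : C(K, ℝ) →ₗ[ℝ] ℝ, (∀ φ : C(K, ℝ), (∀ s, 0 ≤ φ (T s x)) → 0 ≤ Λ φ) ∧
      Λ 1 = 1 ∧ ∀ (s : S) (φ : C(K, ℝ)), Λ (φ.comp ⟨T s, hT.continuous_right s⟩) = Λ φ := by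
  obtain ⟨m, ⟨hpos, hone⟩, hinv⟩ := h
  set u : C(S, K) := ⟨fun t => T t x, hT.continuous_left x⟩ with hu
  have hw : ∀ φ : C(K, ℝ), coeff 𝕜 u φ ∈ WAP 𝕜 S := fun φ =>
    isWAP_coeff T hT x u (fun t => rfl) φ
  refine ⟨{ toFun := fun φ => RCLike.re (m ⟨coeff 𝕜 u φ, hw φ⟩)
            map_add' := fun φ ψ => ?_
            map_smul' := fun c φ => ?_ }, fun φ hφ => ?_, ?_, fun s φ => ?_⟩
  · rw [← map_add, ← map_add]
    congr 2
    exact Subtype.ext (map_add _ _ _)
  · have h1 : (⟨coeff 𝕜 u (c • φ), hw (c • φ)⟩ : WAP 𝕜 S) =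
        (c : 𝕜) • ⟨coeff 𝕜 u φ, hw φ⟩ := by
      refine Subtype.ext ?_
      ext t
      simp
    rw [h1, map_smul]
    simp
  · have h1 := hpos ⟨coeff 𝕜 u φ, hw φ⟩ (fun t => by
      have := hφ t
      simpa [hu] using this)
    exact (RCLike.nonneg_iff.1 h1).1
  · have h1 := hone ⟨coeff 𝕜 u 1, hw 1⟩ (by ext t; simp)
    simp [h1]
  · have h1 := hinv s ⟨coeff 𝕜 u φ, hw φ⟩
    have h2 : WAP.translate s ⟨coeff 𝕜 u φ, hw φ⟩ =
        ⟨coeff 𝕜 u (φ.comp ⟨T s, hT.continuous_right s⟩), hw _⟩ := by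
      refine Subtype.ext ?_
      ext t
      simp [WAP.translate, hu, hT.map_mul]
    rw [h2] at h1
    simp [h1]

end proofs

open Pool.Agent.L0h88.FP in
/-- **Theorem** (answer to Q1: separability can be dropped). Let `S` be a semitopological semigroup
such that `WAP(S)` has a left invariant mean. Then `S` has property (F). The scalar field `𝕜` of
`WAP(S)` and the scalar field `𝕂` of the locally convex spaces can be `ℝ` or `ℂ`, independently. -/
theorem result.{u, v, w, a, b} {𝕜 : Type a} [RCLike 𝕜] {𝕂 : Type w} [RCLike 𝕂] {S : Type b}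
    [Semigroup S] [TopologicalSpace S] [T2Space S] [SeparatelyContinuousMul S]
    (h : HasLIM 𝕜 S) : PropertyF.{u, v, w} 𝕂 S := by
  intro E _ _ _ _ _ _ ι Q hQ C hne hconv hC T hrep hn
  haveI : T2Space (WeakSpace 𝕂 E) := t2_weak hQ
  haveI : T2Space (Weak 𝕂 C) := inferInstanceAs (T2Space {x : WeakSpace 𝕂 E // _})
  set C' : Set (WeakSpace 𝕂 E) := {x | (toWeakSpace 𝕂 E).symm x ∈ C} with hC'
  have hcomp : IsCompact C' := isCompact_iff_compactSpace.2 hC
  have hne' : C'.Nonempty := by
    obtain ⟨x, hx⟩ := hne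
    exact ⟨toWeakSpace 𝕂 E x, hx⟩
  have hconv' : Convex ℝ C' := by
    intro x hx y hy a b ha hb hab
    exact hconv hx hy ha hb hab
  exact core (wsemi Q) (wsemi_separating hQ) (isClosed_wsemi hQ) (mazur_wsemi hQ) C' hcomp hne'
    hconv' T hrep.continuous_right (fun s t => ⟨s * t, fun x => hrep.map_mul s t x⟩)
    (fun i s x y => hn i s x y) (fun x => exists_functional h T hrep x)

end Pool.Agent.Results.MP_c68506_an.NonexpansiveFixedPoints
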